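import Pool.Agent.H95.RQ.Targets1

set_option autoImplicit false

namespace Pool.Agent.H23.RQ

open Pool.Agent.H95.RQ

theorem pf_BAN : T_BAN := by
  intro X _ R hmul h1
  by_contra hcon
  push Not at hcon
  have := Fintype.ofFinite X
  have key : ∀ x : X, ∃ f ∈ R, f x = 1 := by
    intro x
    obtain ⟨d, hd⟩ := Int.subgroup_cyclic (R.map (Pi.evalAddMonoidHom (fun _ : X => ℤ) x))
    have hmem : ∀ f ∈ R, ∃ k : ℤ, k * d = f x := by
      intro f hf
      have : f x ∈ R.map (Pi.evalAddMonoidHom (fun _ : X => ℤ) x) := ⟨f, hf, rfl⟩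
      rw [hd, AddSubgroup.mem_closure_singleton] at this
      obtain ⟨k, hk⟩ := this
      exact ⟨k, by rw [← hk, smul_eq_mul]⟩
    have hu : d.natAbs = 1 := by
      by_contra hne
      obtain ⟨f, hf, hfx⟩ := hcon x d.natAbs.minFac (Nat.minFac_prime hne)
      obtain ⟨k, hk⟩ := hmem f hf
      refine hfx ?_
      rw [← hk]
      exact Dvd.dvd.mul_left (Int.natCast_dvd.2 (Nat.minFac_dvd _)) k
    have h1' : (1 : ℤ) ∈ R.map (Pi.evalAddMonoidHom (fun _ : X => ℤ) x) := by
      rw [hd, AddSubgroup.mem_closure_singleton]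
      rcases Int.natAbs_eq d with h | h
      · exact ⟨1, by rw [h, hu]; simp⟩
      · exact ⟨-1, by rw [h, hu]; simp⟩
    obtain ⟨f, hf, hfx⟩ := h1'
    exact ⟨f, hf, hfx⟩
  choose f hf hfx using key
  let S : Submonoid (X → ℤ) :=
    { carrier := {h | 1 - h ∈ R}
      one_mem' := by simp
      mul_mem' := by
        intro a b ha hb
        change 1 - a ∈ R at ha
        change 1 - b ∈ R at hb
        change 1 - a * b ∈ R
        have : 1 - a * b = (1 - a) + (1 - b) - (1 - a) * (1 - b) := by ring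
        rw [this]
        exact R.sub_mem (R.add_mem ha hb) (hmul _ ha _ hb) }
  have hprod : ∏ x : X, (1 - f x) ∈ S := by
    refine S.prod_mem fun x _ => ?_
    change 1 - (1 - f x) ∈ R
    rw [sub_sub_cancel]
    exact hf x
  have hz : ∏ x : X, (1 - f x) = 0 := by
    ext y
    rw [Finset.prod_apply, Pi.zero_apply]
    refine Finset.prod_eq_zero (Finset.mem_univ y) ?_
    rw [Pi.sub_apply, hfx, Pi.one_apply, sub_self]
  rw [hz] at hprod
  change 1 - 0 ∈ R at hprod
  rw [sub_zero] at hprod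
  exact h1 hprod

end Pool.Agent.H23.RQ
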