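import Pool.Agent.H32.RQ.Targets

/-!
Board hpq_modules, row CRD: the number of the pairs.
-/

set_option autoImplicit false

open Finset Pool.Agent.H32.RQ

namespace Pool.Agent.H23.RQ

theorem two_md (s : ℕ) : 2 * md s = s * (s + 1) := by
  classical
  have h0 : md s = (Finset.univ.filter fun p : Fin s × Fin s => p.1 ≤ p.2).card := by
    unfold md
    exact Fintype.card_subtype _
  have h1 : (Finset.univ.filter fun p : Fin s × Fin s => p.1 ≤ p.2).card =
      (Finset.univ.filter fun p : Fin s × Fin s => p.2 ≤ p.1).card := by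
    refine Finset.card_equiv (Equiv.prodComm (Fin s) (Fin s)) fun p => ?_
    rw [Finset.mem_filter, Finset.mem_filter]
    exact Iff.intro (fun h => ⟨Finset.mem_univ _, h.2⟩) (fun h => ⟨Finset.mem_univ _, h.2⟩)
  have h2 : (Finset.univ.filter fun p : Fin s × Fin s => p.1 ≤ p.2) ∪
      (Finset.univ.filter fun p : Fin s × Fin s => p.2 ≤ p.1) = Finset.univ := by
    rw [← Finset.filter_or]
    exact Finset.filter_true_of_mem fun p _ => le_total _ _
  have h3 : (Finset.univ.filter fun p : Fin s × Fin s => p.1 ≤ p.2) ∩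
      (Finset.univ.filter fun p : Fin s × Fin s => p.2 ≤ p.1) =
      Finset.univ.image fun i : Fin s => (i, i) := by
    rw [← Finset.filter_and]
    ext p
    rw [Finset.mem_filter, Finset.mem_image]
    constructor
    · rintro ⟨-, h4, h5⟩
      exact ⟨p.1, Finset.mem_univ _, Prod.ext rfl (le_antisymm h4 h5)⟩
    · rintro ⟨i, -, rfl⟩
      exact ⟨Finset.mem_univ _, le_refl _, le_refl _⟩
  have h4 := Finset.card_union_add_card_inter
    (Finset.univ.filter fun p : Fin s × Fin s => p.1 ≤ p.2)
    (Finset.univ.filter fun p : Fin s × Fin s => p.2 ≤ p.1)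
  rw [h2, h3, ← h1, ← h0, Finset.card_univ, Fintype.card_prod, Fintype.card_fin,
    Finset.card_image_of_injective _ (fun i j h => (Prod.mk.inj h).1), Finset.card_univ,
    Fintype.card_fin] at h4
  rw [two_mul, ← h4]
  ring

theorem pf_CRD : T_CRD := by
  intro s
  refine ⟨two_md s, fun A => ?_⟩
  have h1 : (Finset.Icc (-(A : ℤ)) A).card = 2 * A + 1 := by
    rw [Int.card_Icc]
    omega
  unfold bx
  rw [Fintype.card_piFinset, Finset.prod_const, Fintype.card_piFinset, Finset.prod_const, h1,
    Finset.card_univ, Finset.card_univ, Fintype.card_fin, ← pow_mul,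
    mul_comm (Fintype.card (Mon s)) 2]
  exact congrArg (fun k => (2 * A + 1) ^ k) (two_md s)

end Pool.Agent.H23.RQ
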