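import Pool.Agent.H29.RQ.Targets

set_option autoImplicit false

/-!
# The last step, dependence on the degree: row FINQ of the board `rdq_modules`
-/

namespace Pool.Agent.H23.RQ

open NumberField Height Finset Polynomial Pool.Agent.H24.RD Pool.Agent.H23.RDD Pool.Agent.H29.RQ

section heights

variable {Ω : Type} [Field Ω] [CharZero Ω] [Algebra.IsAlgebraic ℚ Ω]

theorem habs_one (hHB : T_HB) : absLogHeight₁ (1 : Ω) = 0 := by
  have h := (hHB Ω).2.2.2.1 (1 : Ω) 0
  rwa [pow_zero, Nat.cast_zero, zero_mul] at h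

theorem habs_zpow (hHB : T_HB) (x : Ω) (m : ℤ) :
    absLogHeight₁ (x ^ m) = |(m : ℝ)| * absLogHeight₁ x := by
  obtain ⟨-, -, hinv, hpow, -, -, -⟩ := hHB Ω
  cases m with
  | ofNat n =>
    rw [Int.ofNat_eq_natCast, zpow_natCast, hpow, Int.cast_natCast, Nat.abs_cast]
  | negSucc n =>
    rw [zpow_negSucc, hinv, hpow, Int.cast_negSucc, abs_neg, Nat.abs_cast]

theorem habs_prod (hHB : T_HB) {ι : Type} (s : Finset ι) (f : ι → Ω) :
    absLogHeight₁ (∏ i ∈ s, f i) ≤ ∑ i ∈ s, absLogHeight₁ (f i) := by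
  classical
  induction s using Finset.induction_on with
  | empty => rw [prod_empty, sum_empty, habs_one hHB]
  | insert a s ha ih =>
    rw [prod_insert ha, sum_insert ha]
    exact ((hHB Ω).2.1 _ _).trans (add_le_add_right ih _)

end heights

theorem pf_FINQ (h1 : T_HB) (h2 : T_DIR) (h3 : T_RDQ) (h4 : T_CDG) : T_FINQ := by
  classical
  intro F Ω _ _ _ _ _ _ _ r γ hγ ε hε
  have : Algebra.IsAlgebraic ℚ Ω := Algebra.IsAlgebraic.trans ℚ F Ω
  obtain ⟨hnn, hmul, hinv, hpow, -, -, -⟩ := h1 Ω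
  obtain ⟨c1, hc1, hR⟩ := h3 Ω ε hε
  -- constants
  set G : Fin r → Ω := fun i => algebraMap F Ω (γ i) with hG
  have hG0 : ∀ i, G i ≠ 0 := fun i => (_root_.map_ne_zero _).2 (hγ.1 i)
  set H : ℝ := ∑ i, absLogHeight₁ (G i) with hH
  have hH0 : 0 ≤ H := sum_nonneg fun i _ => hnn _
  have hfr : 0 < Module.finrank ℚ F := Module.finrank_pos
  have hfrR : (0 : ℝ) < Module.finrank ℚ F := by exact_mod_cast hfr
  set A : ℝ := 2 * (H + 1) / c1 + 1 with hA
  have hA0 : 0 < A := by positivity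
  refine ⟨c1 / (2 * A ^ r * (Module.finrank ℚ F : ℝ) ^ ((1 + ε) * ((r : ℝ) + 1))),
    by positivity, ?_⟩
  intro N K d hN hKN hd α ⟨β, hβ0, hβ, _, g, ⟨hg0, n, hn, x, hgx⟩, hα⟩ hαD
  have hK : 0 < K := Nat.pos_of_dvd_of_pos hKN hN
  set D1 : ℕ := Module.finrank ℚ F * K ^ r * d with hD1
  have hD10 : 0 < D1 := by positivity
  have hD1R : (1 : ℝ) ≤ D1 := by exact_mod_cast hD10
  set X : ℝ := (D1 : ℝ) ^ (1 + ε) with hX
  have hX1 : 1 ≤ X := Real.one_le_rpow hD1R (by linarith)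
  have hX0 : 0 < X := by linarith
  set Q : ℕ := ⌈2 * (H + 1) * X / c1⌉₊ with hQd
  have hQpos : 0 < 2 * (H + 1) * X / c1 := by positivity
  have hQ0 : 0 < Q := Nat.ceil_pos.2 hQpos
  have hQR : (0 : ℝ) < Q := by exact_mod_cast hQ0
  have hQle : 2 * (H + 1) * X / c1 ≤ Q := Nat.le_ceil _
  have hQA : (Q : ℝ) ≤ A * X := by
    have h5 : (Q : ℝ) < 2 * (H + 1) * X / c1 + 1 := Nat.ceil_lt_add_one hQpos.le
    have h6 : A * X = 2 * (H + 1) * X / c1 + X := by
      rw [hA]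
      ring
    rw [h6]
    linarith
  have hHQ : 1 / (Q : ℝ) * H ≤ c1 / (2 * X) := by
    rw [div_le_iff₀ hc1] at hQle
    rw [one_div, inv_mul_le_iff₀ hQR, mul_div_assoc', le_div_iff₀ (by positivity)]
    have h5 : H * (2 * X) ≤ 2 * (H + 1) * X := by nlinarith
    exact h5.trans hQle
  obtain ⟨k, a, hk1, hkQ, hka⟩ := h2 r Q hQ0 fun i => (x i : ℝ) / n
  have hnR : (0 : ℝ) < n := by exact_mod_cast hn
  have hkR : (0 : ℝ) < k := by exact_mod_cast hk1
  have hα0 : α ≠ 0 := by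
    rw [hα]
    exact mul_ne_zero hβ0 hg0
  set P : Ω := ∏ i, G i ^ a i with hP
  have hP0 : P ≠ 0 := prod_ne_zero_iff.2 fun i _ => zpow_ne_zero _ (hG0 i)
  have hgx' : g ^ n = ∏ i, G i ^ x i := hgx
  -- the small factor
  set om : Ω := P / g ^ k with hom
  have hom1 : om ^ n = ∏ i, G i ^ ((n : ℤ) * a i - k * x i) := by
    rw [hom, div_pow, ← pow_mul, mul_comm k n, pow_mul, hgx', hP, ← prod_pow, ← prod_pow,
      ← prod_div_distrib]
    refine prod_congr rfl fun i _ => ?_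
    rw [zpow_sub₀ (hG0 i), mul_comm (n : ℤ), zpow_mul, zpow_natCast, mul_comm (k : ℤ), zpow_mul,
      zpow_natCast]
  have hom2 : absLogHeight₁ om ≤ c1 / (2 * X) := by
    have h5 : (n : ℝ) * absLogHeight₁ om ≤ ∑ i, |(((n : ℤ) * a i - k * x i : ℤ) : ℝ)| *
        absLogHeight₁ (G i) := by
      rw [← hpow, hom1]
      refine (habs_prod h1 _ _).trans (le_of_eq (sum_congr rfl fun i _ => ?_))
      exact habs_zpow h1 _ _
    have h6 : ∑ i, |(((n : ℤ) * a i - k * x i : ℤ) : ℝ)| * absLogHeight₁ (G i) ≤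
        ∑ i, (n * (1 / (Q : ℝ))) * absLogHeight₁ (G i) := by
      refine sum_le_sum fun i _ => mul_le_mul_of_nonneg_right ?_ (hnn _)
      have h7 := hka i
      have h8 : (((n : ℤ) * a i - k * x i : ℤ) : ℝ) = -(n * ((k : ℝ) * ((x i : ℝ) / n) - a i)) := by
        push_cast
        field_simp
        ring
      rw [h8, abs_neg, abs_mul, Nat.abs_cast]
      exact mul_le_mul_of_nonneg_left h7 hnR.le
    rw [← mul_sum, ← hH, mul_assoc] at h6
    exact (le_of_mul_le_mul_left (h5.trans h6) hnR).trans hHQ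
  -- the element over which the lower bound is known
  set b : Ω := β ^ k * P with hb
  have hbα : b = α ^ k * om := by
    rw [hb, hom, hα, mul_pow]
    field_simp
  have hb0 : b ≠ 0 := mul_ne_zero (pow_ne_zero _ hβ0) hP0
  have hbm : Cj F Ω (Lv F Ω γ N K) d b := by
    obtain ⟨s, hs, hσ⟩ := hβ
    refine ⟨s.image fun y => y ^ k * P, Finset.card_image_le.trans hs, fun σ hfix => ?_⟩
    have hσP : σ P = P := by
      rw [hP, map_prod]
      refine prod_congr rfl fun i _ => ?_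
      rw [map_zpow₀]
      congr 1
      exact σ.commutes (γ i)
    rw [hb, map_mul, map_pow, hσP]
    exact Finset.mem_image_of_mem _ (hσ σ hfix)
  have hbu : ∀ j : ℕ, 0 < j → b ^ j ≠ 1 := by
    intro j hj hbj
    refine hαD ⟨hα0, k * j * n, by positivity, fun i => (j : ℤ) * (k * x i - n * a i), ?_⟩
    have h5 : α ^ (k * j * n) * (om ^ n) ^ j = 1 := by
      have h6 : (b ^ j) ^ n = α ^ (k * j * n) * (om ^ n) ^ j := by
        rw [hbα]
        ring
      rw [← h6, hbj, one_pow]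
    have h7 : (om ^ n) ^ j * ∏ i, G i ^ ((j : ℤ) * (k * x i - n * a i)) = 1 := by
      rw [hom1, ← prod_pow, ← prod_mul_distrib]
      refine prod_eq_one fun i _ => ?_
      rw [← zpow_natCast, ← zpow_mul, ← zpow_add₀ (hG0 i)]
      have e : ((n : ℤ) * a i - k * x i) * (j : ℤ) + (j : ℤ) * (k * x i - n * a i) = 0 := by ring
      rw [e, zpow_zero]
    show α ^ (k * j * n) = ∏ i, G i ^ ((j : ℤ) * (k * x i - n * a i))
    calc α ^ (k * j * n) = α ^ (k * j * n) *
          ((om ^ n) ^ j * ∏ i, G i ^ ((j : ℤ) * (k * x i - n * a i))) := by rw [h7, mul_one]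
      _ = (α ^ (k * j * n) * (om ^ n) ^ j) *
          ∏ i, G i ^ ((j : ℤ) * (k * x i - n * a i)) := (mul_assoc _ _ _).symm
      _ = _ := by rw [h5, one_mul]
  have hfin := hR N D1 hN hD10 b hb0 hbu (h4 F Ω r γ hγ.1 N K d hN hKN b hbm)
  have hup : absLogHeight₁ b ≤ k * absLogHeight₁ α + c1 / (2 * X) := by
    rw [hbα]
    refine (hmul _ _).trans ?_
    rw [hpow]
    exact add_le_add_right hom2 _
  have hkQ' : (k : ℝ) ≤ (Q : ℝ) ^ r := by exact_mod_cast hkQ
  have e1 : c1 / 2 ≤ k * absLogHeight₁ α * X := by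
    have h5 : c1 ≤ (k * absLogHeight₁ α + c1 / (2 * X)) * X :=
      hfin.trans (mul_le_mul_of_nonneg_right hup hX0.le)
    have h6 : (k * absLogHeight₁ α + c1 / (2 * X)) * X = k * absLogHeight₁ α * X + c1 / 2 := by
      field_simp
    rw [h6] at h5
    linarith
  have e2 : (k : ℝ) ≤ A ^ r * X ^ r := by
    rw [← mul_pow]
    exact hkQ'.trans (pow_le_pow_left₀ hQR.le hQA r)
  have e3 : X ^ r * X = (Module.finrank ℚ F : ℝ) ^ ((1 + ε) * ((r : ℝ) + 1)) *
      ((K : ℝ) ^ r * d) ^ ((1 + ε) * ((r : ℝ) + 1)) := by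
    rw [← Real.mul_rpow (by positivity) (by positivity), ← pow_succ, hX, ← Real.rpow_natCast,
      ← Real.rpow_mul (by positivity), hD1]
    push_cast
    rw [mul_assoc]
  have hh0 := hnn α
  rw [div_le_iff₀ (by positivity)]
  have e4 : k * absLogHeight₁ α * X ≤ A ^ r * X ^ r * absLogHeight₁ α * X := by gcongr
  calc c1 = 2 * (c1 / 2) := by ring
    _ ≤ 2 * (A ^ r * X ^ r * absLogHeight₁ α * X) := by linarith
    _ = 2 * (A ^ r * absLogHeight₁ α * (X ^ r * X)) := by ring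
    _ = _ := by
      rw [e3]
      ring

end Pool.Agent.H23.RQ
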