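import Pool.Agent.H29.RQ.Targets

set_option autoImplicit false

/-!
# Heights of reduced numbers over cyclotomic fields: row FRQ of the board `rdq_modules`
-/

namespace Pool.Agent.H23.RQ

open NumberField Height Finset Polynomial Pool.Agent.H24.RD Pool.Agent.H23.RDD Pool.Agent.H29.RQ

theorem pf_FRQ (h1 : T_HA) (h2 : T_FRO) (h3 : T_FRX) (h4 : T_NU2) : T_FRQ := by
  classical
  intro Ω _ _ _ _ p hp ε hε
  have : IsAlgClosure ℚ Ω := ⟨inferInstance, inferInstance⟩
  have : Normal ℚ Ω := IsAlgClosure.normal ℚ Ω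
  obtain ⟨c0, hc0, hN2⟩ := h4 p hp.two_le ε hε
  refine ⟨c0 / 2, by positivity, ?_⟩
  intro v N' d hN' hd β hβ0 hβr hCj hRed
  have hN0 : p ^ v * N' ≠ 0 :=
    mul_ne_zero (pow_ne_zero _ hp.ne_zero) fun h => hN' (h ▸ dvd_zero p)
  have : NeZero (p ^ v * N') := ⟨hN0⟩
  have : NeZero ((p ^ v * N' : ℕ) : Ω) := ⟨by exact_mod_cast hN0⟩
  obtain ⟨ζ', hζ'⟩ := HasEnoughRootsOfUnity.exists_primitiveRoot Ω (p ^ v * N')
  set E := IntermediateField.adjoin ℚ {z : Ω | z ^ (p ^ v * N') = 1} with hE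
  have hζE : ζ' ∈ E := IntermediateField.subset_adjoin ℚ _ hζ'.pow_eq_one
  have hEs : E = IntermediateField.adjoin ℚ {ζ'} := by
    apply le_antisymm
    · rw [hE]
      apply IntermediateField.adjoin_le_iff.2
      intro z hz
      obtain ⟨i, -, rfl⟩ := hζ'.eq_pow_of_pow_eq_one hz
      exact pow_mem (IntermediateField.mem_adjoin_simple_self ℚ ζ') i
    · apply IntermediateField.adjoin_le_iff.2
      intro z hz
      rw [Set.mem_singleton_iff] at hz
      rw [hz]; exact hζE
  have hfd : FiniteDimensional ℚ E := by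
    rw [hEs]
    exact IntermediateField.adjoin.finiteDimensional
      (Algebra.IsIntegral.isIntegral (R := ℚ) ζ')
  have : NumberField E := {}
  have hnor : @Normal ℚ E _ _ E.algebra' := by
    rw [IntermediateField.normal_iff_forall_map_le]
    intro σ
    rw [hE, IntermediateField.adjoin_map]
    apply IntermediateField.adjoin_le_iff.2
    rintro _ ⟨z, hz, rfl⟩
    apply IntermediateField.subset_adjoin
    change (σ z) ^ (p ^ v * N') = 1
    have hz' : z ^ (p ^ v * N') = 1 := hz
    rw [← map_pow, hz', map_one]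
  have : Normal ℚ E := hnor
  have : IsGalois ℚ E := {}
  set ζ : E := ⟨ζ', hζE⟩ with hζ
  have hζp : IsPrimitiveRoot ζ (p ^ v * N') :=
    IsPrimitiveRoot.of_map_of_injective (f := E.val) (by exact hζ') E.val.injective
  have htop' : @IntermediateField.adjoin ℚ _ E _ E.algebra' {ζ} = ⊤ := by
    apply IntermediateField.lift_injective E
    rw [IntermediateField.lift_adjoin_simple, IntermediateField.lift_top]
    exact hEs.symm
  have htop : IntermediateField.adjoin ℚ {ζ} = ⊤ := htop'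
  obtain ⟨φ, hφ⟩ := h2 E p v N' hp hN' ζ hζp htop
  -- the big field
  have : FiniteDimensional ℚ (IntermediateField.adjoin ℚ {β}) :=
    IntermediateField.adjoin.finiteDimensional (Algebra.IsIntegral.isIntegral (R := ℚ) β)
  set K0 : IntermediateField ℚ Ω := E ⊔ IntermediateField.adjoin ℚ {β} with hK0
  set M : IntermediateField ℚ Ω := IntermediateField.normalClosure ℚ K0 Ω with hM
  have hK0M : K0 ≤ M := IntermediateField.le_normalClosure K0
  have hEM : E ≤ M := le_sup_left.trans hK0M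
  have hβM : β ∈ M := hK0M (le_sup_right (a := E) (IntermediateField.mem_adjoin_simple_self ℚ β))
  have hMfd : @FiniteDimensional ℚ M _ _ M.algebra'.toModule := inferInstance
  have : FiniteDimensional ℚ M := hMfd
  have : NumberField M := {}
  have hMn : @Normal ℚ M _ _ M.algebra' := inferInstance
  have : Normal ℚ M := hMn
  have : IsGalois ℚ M := {}
  let : Algebra E M := (IntermediateField.inclusion hEM).toRingHom.toAlgebra
  have halg : ∀ x : E, ((algebraMap E M x : M) : Ω) = (x : Ω) := fun x => rfl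
  have hlift : ∀ (σ : M ≃ₐ[ℚ] M) (x : M), (σ.liftNormal Ω) (x : Ω) = ((σ x : M) : Ω) :=
    fun σ x => σ.liftNormal_commutes Ω x
  have hfixE : ∀ σ : M ≃ₐ[ℚ] M, (∀ y : E, σ (algebraMap E M y) = algebraMap E M y) →
      ∀ z ∈ E, (σ.liftNormal Ω) z = z := by
    intro σ hσ z hz
    have e1 := hlift σ (algebraMap E M ⟨z, hz⟩)
    rw [hσ ⟨z, hz⟩] at e1
    exact e1
  set b : M := ⟨β, hβM⟩ with hb
  have hb0 : b ≠ 0 := fun h => hβ0 (congrArg (fun x : M => (x : Ω)) h)
  have hbr : ∀ n : ℕ, 0 < n → b ^ n ≠ 1 := fun n hn h => hβr n hn (by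
    have e1 := congrArg (fun x : M => (x : Ω)) h
    exact e1)
  obtain ⟨s, hs1, hs2, hs3⟩ := hN2 d hd
  have hfrx := h3 E M p v hp φ hφ d b hd hb0 hbr (by
    obtain ⟨t, ht, htσ⟩ := hCj
    refine ⟨t.preimage (fun x : M => (x : Ω)) Subtype.val_injective.injOn, ?_, ?_⟩
    · refine le_trans ?_ ht
      refine (Finset.card_le_card_of_injOn (fun x : M => (x : Ω)) ?_ ?_)
      · intro x hx
        exact Finset.mem_preimage.1 hx
      · intro x _ y _ h
        exact Subtype.ext h
    · intro σ hσ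
      rw [Finset.mem_preimage]
      have e1 := htσ (σ.liftNormal Ω) (hfixE σ hσ)
      have e2 := hlift σ b
      rw [← e2]
      exact e1) (by
    intro σ hσ k hk
    have e1 := hRed (σ.liftNormal Ω) (hfixE σ hσ) (p ^ k) (pow_pos hp.pos k) (by
      have e2 := hlift σ b
      have e3 := congrArg (fun x : M => (x : Ω)) hk
      change (σ.liftNormal Ω) (b : Ω) ^ (p ^ k) = (b : Ω) ^ (p ^ k)
      rw [e2]
      exact e3)
    apply Subtype.ext
    rw [← hlift σ b]
    exact e1) s hs1
  have hha : absLogHeight₁ β = logHeight₁ b / (Module.finrank ℚ M : ℝ) := h1 M Ω b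
  rw [← hha] at hfrx
  have hh : 0 ≤ absLogHeight₁ β := by
    rw [hha]
    exact div_nonneg (zero_le_logHeight₁ b) (Nat.cast_nonneg _)
  have hdR : (0 : ℝ) < d := by exact_mod_cast hd
  have hpR : (0 : ℝ) < p := by exact_mod_cast hp.pos
  have e1 : 1 ≤ 2 * d * (p : ℝ) ^ (v + s) * absLogHeight₁ β := by linarith
  have e2 : c0 ≤ 2 * d * (p : ℝ) ^ v * absLogHeight₁ β * (d : ℝ) ^ ε := by
    calc c0 ≤ c0 * (2 * d * (p : ℝ) ^ (v + s) * absLogHeight₁ β) :=
          le_mul_of_one_le_right hc0.le e1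
      _ = 2 * d * (p : ℝ) ^ v * absLogHeight₁ β * (c0 * (p : ℝ) ^ s) := by
          rw [pow_add]
          ring
      _ ≤ _ := mul_le_mul_of_nonneg_left hs3 (by positivity)
  rw [Real.rpow_add hdR, Real.rpow_one]
  linarith

end Pool.Agent.H23.RQ
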