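import Pool.Agent.H29.RQ.Targets

set_option autoImplicit false

/-!
# The key statement, dependence on the degree: row KEYQ of the board `rdq_modules`
-/

namespace Pool.Agent.H23.RQ

open NumberField Height Finset Polynomial Pool.Agent.H24.RD Pool.Agent.H23.RDD Pool.Agent.H29.RQ

/-- the height of `σ β * g`, where `g` is a radical -/
theorem height_conj_mul (hHB : T_HB) (F Ω : Type) [Field F] [NumberField F] [Field Ω] [CharZero Ω]
    [Algebra F Ω] [Algebra.IsAlgebraic F Ω] (σ : Ω ≃ₐ[F] Ω) (β g : Ω) (hg : g ≠ 0) (i : ℕ) (a : F)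
    (hi : 0 < i) (hga : g ^ i = algebraMap F Ω a) :
    absLogHeight₁ (σ β * g) = absLogHeight₁ (β * g) := by
  have : Algebra.IsAlgebraic ℚ Ω := Algebra.IsAlgebraic.trans ℚ F Ω
  obtain ⟨-, -, -, -, htor, hconj, -⟩ := hHB Ω
  have hσg : σ g ≠ 0 := fun h => hg ((map_eq_zero σ).1 h)
  have h1 : (g / σ g) ^ i = 1 := by
    rw [div_pow, ← map_pow, hga, AlgEquiv.commutes, div_self]
    rw [← hga]
    exact pow_ne_zero _ hg
  have h2 : σ β * g = (g / σ g) * σ (β * g) := by
    rw [map_mul]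
    field_simp
  rw [h2, htor _ _ i hi h1]
  exact hconj (σ : Ω ≃+* Ω) (β * g)

theorem pf_KEYQ (h1 : T_HA) (h2 : T_HB) (h3 : T_VC) (h4 : T_LVB) (h5 : T_VAB) (h6 : T_WG)
    (h7 : T_KEA) : T_KEYQ := by
  classical
  intro F Ω _ _ _ _ _ _ _ p hp r γ hγ
  obtain ⟨C, hC⟩ := h6 F p hp r γ hγ
  refine ⟨C, ?_⟩
  intro n m n1 n2 j d N' K' hL β hβ hcj hred g hg hga hh κ
  obtain ⟨i, a, hi, hga⟩ := hga
  obtain ⟨hd, hn2, hn2n, hn1m, hmn, hn1, hN', hK', hlog⟩ := hL
  have hN0 : N' ≠ 0 := fun h => hN' (h ▸ dvd_zero p)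
  have hK0 : K' ≠ 0 := by
    rintro rfl
    exact hN0 (Nat.eq_zero_of_zero_dvd hK')
  have hpK : ¬ p ∣ K' := fun h => hN' (h.trans hK')
  have hlvb := h4 F Ω r γ hγ (p ^ n * N') (p ^ m * K')
    (Nat.pos_of_ne_zero (mul_ne_zero (pow_ne_zero _ hp.ne_zero) hN0))
    (Nat.pos_of_ne_zero (mul_ne_zero (pow_ne_zero _ hp.ne_zero) hK0))
  set E := Lv F Ω γ (p ^ n * N') (p ^ m * K') with hE
  obtain ⟨hfd, hgal, ⟨ζ, hζ⟩, hθ, hadj, -⟩ := hlvb
  have : IsAlgClosure F Ω := ⟨inferInstance, inferInstance⟩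
  have : Normal F Ω := IsAlgClosure.normal F Ω
  have : FiniteDimensional ℚ E := FiniteDimensional.trans ℚ F _
  have : NumberField E := {}
  set A := (r + 1) * (n - n1) with hA
  have hA1 : n - n1 ≤ A := Nat.le_mul_of_pos_left _ (Nat.succ_pos r)
  have hn1n : n1 ≤ n := hn1m.trans hmn
  have hn2n1 : n ≤ 2 * n1 := by omega
  have h1n1 : 1 ≤ n1 := by omega
  obtain ⟨hVc, -⟩ := h3 F E p hp r γ hγ n m n1 N' K' hn1m hmn hn2n1 hN' hK' ⟨ζ, hζ⟩ hθ hadj
  have hVcom := h5 F E p hp r γ hγ n m n1 N' K' hn1m hmn hn2n1 hN' hK' hadj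
  have hp2 := hp.two_le
  have hT0 : 0 < p ^ A := pow_pos hp.pos _
  have h2T : 2 * p ^ A ≤ p ^ (n1 - 1) * (p - 1) := by
    calc 2 * p ^ A ≤ p * p ^ A := Nat.mul_le_mul_right _ hp2
      _ = p ^ (A + 1) := by rw [pow_succ, mul_comm]
      _ ≤ p ^ (n1 - 1) := Nat.pow_le_pow_right hp.pos (by omega)
      _ ≤ p ^ (n1 - 1) * (p - 1) := Nat.le_mul_of_pos_right _ (by omega)
  have hW := hC E n1 n2 j K' (p ^ A) hpK hn2 h1n1 hT0 h2T hVc
    ⟨ζ ^ (p ^ (n - n2) * N'), hζ.pow
      (Nat.pos_of_ne_zero (mul_ne_zero (pow_ne_zero _ hp.ne_zero) hN0)) (by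
        rw [mul_right_comm, ← pow_add, Nat.sub_add_cancel hn2n])⟩
    (fun i => by
      obtain ⟨θ, h⟩ := hθ i
      refine ⟨θ ^ (p ^ (m - n1) * K'), ?_⟩
      rw [← pow_mul, mul_right_comm, ← pow_add, Nat.sub_add_cancel hn1m]
      exact h)
    (fun i => by
      obtain ⟨θ, h⟩ := hθ i
      refine ⟨θ ^ (p ^ m), ?_⟩
      rw [← pow_mul]
      exact h)
  -- the big field
  have : FiniteDimensional F (IntermediateField.adjoin F {β}) :=
    IntermediateField.adjoin.finiteDimensional (Algebra.IsIntegral.isIntegral (R := F) β)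
  have : FiniteDimensional F (IntermediateField.adjoin F {g}) :=
    IntermediateField.adjoin.finiteDimensional (Algebra.IsIntegral.isIntegral (R := F) g)
  set K0 : IntermediateField F Ω :=
    E ⊔ (IntermediateField.adjoin F {β} ⊔ IntermediateField.adjoin F {g}) with hK0
  set M : IntermediateField F Ω := IntermediateField.normalClosure F K0 Ω with hM
  have hK0M : K0 ≤ M := IntermediateField.le_normalClosure K0
  have hEM : E ≤ M := le_sup_left.trans hK0M
  have hβM : β ∈ M := hK0M ((le_sup_left.trans (le_sup_right (a := E)))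
    (IntermediateField.mem_adjoin_simple_self F β))
  have hgM : g ∈ M := hK0M ((le_sup_right.trans (le_sup_right (a := E)))
    (IntermediateField.mem_adjoin_simple_self F g))
  have : FiniteDimensional F M := inferInstance
  have : FiniteDimensional ℚ M := FiniteDimensional.trans ℚ F _
  have : NumberField M := {}
  have : Normal F M := inferInstance
  have : IsGalois F M := {}
  let _ : Algebra E M := (IntermediateField.inclusion hEM).toRingHom.toAlgebra
  have : IsScalarTower F E M := IsScalarTower.of_algebraMap_eq fun x => rfl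
  have hlift : ∀ (σ : M ≃ₐ[F] M) (x : M), (σ.liftNormal Ω) (x : Ω) = ((σ x : M) : Ω) :=
    fun σ x => σ.liftNormal_commutes Ω x
  have hliftE : ∀ (σ : M ≃ₐ[F] M) (t : E → E), (∀ y : E, σ (algebraMap E M y) =
      algebraMap E M (t y)) → ∀ y : E, (σ.liftNormal Ω) (y : Ω) = ((t y : E) : Ω) := by
    intro σ t hσ y
    have e1 := hlift σ (algebraMap E M y)
    rw [hσ y] at e1
    exact e1
  set b : M := ⟨β, hβM⟩ with hb
  set g' : M := ⟨g, hgM⟩ with hg'
  have hb0 : b ≠ 0 := fun h => hβ (congrArg (fun x : M => (x : Ω)) h)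
  have hg0 : g' ≠ 0 := fun h => hg (congrArg (fun x : M => (x : Ω)) h)
  have hD0 : 0 < (Module.finrank ℚ M : ℝ) := by exact_mod_cast Module.finrank_pos
  have hAO : ∀ x : M, logHeight₁ x = (Module.finrank ℚ M : ℝ) * absLogHeight₁ (x : Ω) := by
    intro x
    have e1 : absLogHeight₁ (x : Ω) = logHeight₁ x / (Module.finrank ℚ M : ℝ) := h1 M Ω x
    rw [e1]
    field_simp
  obtain ⟨t, htV, htU, ⟨σ, hσ1, hσ2⟩, ⟨σ', hσ1', hσ2'⟩⟩ :=
    h7 F E M p hp (VV F E γ p n1 K') (UU F E (p ^ n2)) (p ^ A) d j (A + 1) hT0 hd hVc hVcom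
      (fun v hv => by
        obtain ⟨W, hWV, hW1, hW2⟩ := hW v hv
        exact ⟨W, hWV, hW1, hW2⟩)
      (by
        rw [pow_succ, mul_comm]
        exact Nat.mul_le_mul_left _ hp2)
      (by
        push_cast
        exact hlog)
      b g' hb0 hg0
      (by
        obtain ⟨s, hs, hsσ⟩ := hcj
        refine ⟨s.preimage (fun x : M => (x : Ω)) Subtype.val_injective.injOn, ?_, ?_⟩
        · refine le_trans ?_ hs
          refine (Finset.card_le_card_of_injOn (fun x : M => (x : Ω)) ?_ ?_)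
          · intro x hx
            exact Finset.mem_preimage.1 hx
          · intro x _ y _ h
            exact Subtype.ext h
        · intro σ hσ
          rw [Finset.mem_preimage]
          have e1 := hsσ (σ.liftNormal Ω) (fun z hz => hliftE σ id hσ ⟨z, hz⟩)
          rw [← hlift σ b]
          exact e1)
      (by
        intro σ hσ hk
        have e1 := hred (σ.liftNormal Ω) (fun z hz => hliftE σ id hσ ⟨z, hz⟩) (p ^ (A + 1))
          (pow_pos hp.pos _) (by
            have e3 := congrArg (fun x : M => (x : Ω)) hk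
            change (σ.liftNormal Ω) (b : Ω) ^ (p ^ (A + 1)) = (b : Ω) ^ (p ^ (A + 1))
            rw [hlift σ b]
            exact e3)
        apply Subtype.ext
        rw [← hlift σ b]
        exact e1)
      ((Module.finrank ℚ M : ℝ) * absLogHeight₁ (β * g))
      (by
        intro σ
        rw [hAO]
        refine le_of_eq ?_
        have e1 : ((σ b * g' : M) : Ω) = (σ.liftNormal Ω) β * g := by
          have e2 := hlift σ b
          change ((σ b : M) : Ω) * g = _
          rw [← e2]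
        rw [e1, height_conj_mul h2 F Ω (σ.liftNormal Ω) β g hg i a hi hga])
      (by
        have e1 : 4 * (d * ((p ^ A : ℕ) : ℝ) * (p : ℝ) ^ (A + 1)) *
            ((Module.finrank ℚ M : ℝ) * absLogHeight₁ (β * g)) =
            (Module.finrank ℚ M : ℝ) *
              (4 * d * (p : ℝ) ^ (2 * A + 1) * absLogHeight₁ (β * g)) := by
          push_cast
          rw [show 2 * A + 1 = A + (A + 1) by ring, pow_add (p : ℝ) A (A + 1)]
          ring
        rw [e1]
        exact mul_lt_of_lt_one_right hD0 hh)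
      (κ.restrictNormal M)
  refine ⟨t, htV, ?_, ⟨σ.liftNormal Ω, hliftE σ t hσ1, ?_⟩, ⟨σ'.liftNormal Ω, hliftE σ' t hσ1', ?_⟩⟩
  · by_contra hcon
    push Not at hcon
    exact htU fun y hy => hcon y hy
  · have e3 := congrArg (fun x : M => (x : Ω)) hσ2
    change (σ.liftNormal Ω) (b : Ω) ^ (p ^ (A + 1)) = (b : Ω) ^ (p ^ (A + 1))
    rw [hlift σ b]
    exact e3
  · have e3 := congrArg (fun x : M => (x : Ω)) hσ2'
    have e4 : ((κ.restrictNormal M b : M) : Ω) = κ β := κ.restrictNormal_commutes M b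
    have e5 : ((σ' (κ.restrictNormal M b) : M) : Ω) = (σ'.liftNormal Ω) (κ β) := by
      rw [← e4, hlift σ']
    change ((σ' (κ.restrictNormal M b) : M) : Ω) ^ (p ^ (A + 1)) =
      ((κ.restrictNormal M b : M) : Ω) ^ (p ^ (A + 1)) at e3
    rw [e5, e4] at e3
    exact e3

end Pool.Agent.H23.RQ
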