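import Pool.Agent.H32.RQ.Targets

/-!
Board hpq_modules, row PS1: the pairs close to the special pair are robust.
-/

set_option autoImplicit false

open Finset Pool.Agent.H32.RQ

namespace Pool.Agent.H23.RQ

section

variable {R : Type} [CommRing R] {s : ℕ}

theorem qf_single (o : Fin s) (f : Mon s → R) :
    qf f (fun j => if j = o then (1 : R) else 0) = f ⟨(o, o), le_refl _⟩ := by
  unfold qf
  rw [Finset.sum_eq_single (⟨(o, o), le_refl _⟩ : Mon s)]
  · simp
  · intro p _ hp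
    have h1 : ¬ (p.1.1 = o ∧ p.1.2 = o) := fun h => hp (Subtype.ext (Prod.ext h.1 h.2))
    dsimp only
    by_cases h2 : p.1.1 = o
    · have h3 : p.1.2 ≠ o := fun h => h1 ⟨h2, h⟩
      rw [if_neg h3]
      ring
    · rw [if_neg h2]
      ring
  · intro h
    exact absurd (Finset.mem_univ _) h

theorem dq_single (o j : Fin s) (hoj : o < j) (f : Mon s → R) :
    dq f (fun j => if j = o then (1 : R) else 0) j = f ⟨(o, j), hoj.le⟩ := by
  unfold dq
  rw [Finset.sum_eq_single (⟨(o, j), hoj.le⟩ : Mon s)]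
  · simp [hoj.ne]
  · intro p _ hp
    have h1 : ¬ (p.1.1 = o ∧ p.1.2 = j) := fun h => hp (Subtype.ext (Prod.ext h.1 h.2))
    have h2 : (if p.1.1 = j then (if p.1.2 = o then (1 : R) else 0) else 0) = 0 := by
      by_cases h3 : p.1.1 = j
      · by_cases h4 : p.1.2 = o
        · have h5 := p.2
          rw [h3, h4] at h5
          exact absurd hoj (not_lt.2 h5)
        · rw [if_pos h3, if_neg h4]
      · rw [if_neg h3]
    have h6 : (if p.1.2 = j then (if p.1.1 = o then (1 : R) else 0) else 0) = 0 := by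
      by_cases h3 : p.1.2 = j
      · by_cases h4 : p.1.1 = o
        · exact absurd ⟨h4, h3⟩ h1
        · rw [if_pos h3, if_neg h4]
      · rw [if_neg h3]
    rw [h2, h6]
    ring
  · intro h
    exact absurd (Finset.mem_univ _) h

end

theorem pf_PS1 : T_PS1 := by
  classical
  intro s V A r c hs hr hc
  have hc' := (Finset.mem_filter.1 hc).2
  set o : Fin s := ⟨0, by omega⟩ with ho
  set u : Fin s := ⟨1, by omega⟩ with hu
  set w : Fin s := ⟨2, by omega⟩ with hw
  have hou : o < u := by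
    rw [Fin.lt_def]
    exact Nat.zero_lt_one
  have how : o < w := by
    rw [Fin.lt_def]
    exact Nat.zero_lt_two
  have e00 : ∀ i : Fin 2, cs s i ⟨(o, o), le_refl _⟩ = 0 := by
    intro i
    unfold cs
    refine if_neg fun h => ?_
    have h2 : (0 : ℕ) = i.val + 1 := h.2
    omega
  have e01 : cs s 0 ⟨(o, u), hou.le⟩ = 1 := by
    unfold cs
    exact if_pos ⟨rfl, rfl⟩
  have e11 : cs s 1 ⟨(o, u), hou.le⟩ = 0 := by
    unfold cs
    refine if_neg fun h => ?_
    have h2 : (1 : ℕ) = 1 + 1 := h.2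
    omega
  have e02 : cs s 0 ⟨(o, w), how.le⟩ = 0 := by
    unfold cs
    refine if_neg fun h => ?_
    have h2 : (2 : ℕ) = 0 + 1 := h.2
    omega
  have e12 : cs s 1 ⟨(o, w), how.le⟩ = 1 := by
    unfold cs
    exact if_pos ⟨rfl, rfl⟩
  have c00 := fun i => hc' i ⟨(o, o), le_refl _⟩
  have c01 := hc' 0 ⟨(o, u), hou.le⟩
  have c11 := hc' 1 ⟨(o, u), hou.le⟩
  have c02 := hc' 0 ⟨(o, w), how.le⟩
  have c12 := hc' 1 ⟨(o, w), how.le⟩
  simp only [e00] at c00
  rw [e01] at c01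
  rw [e11] at c11
  rw [e02] at c02
  rw [e12] at c12
  refine ⟨⟨fun j => if j = o then (1 : ℝ) else 0, fun j => ?_, ⟨o, ?_⟩, fun i => ?_, u, w, ?_⟩,
    fun p hp hpV => ⟨fun j => if j = o then (1 : ℤ) else 0, ⟨o, ?_⟩, fun i => ?_, u, w, ?_⟩⟩
  · dsimp only
    split_ifs <;> simp
  · simp
  · rw [qf_single]
    have h1 := (c00 i).2
    rw [Int.cast_zero, mul_zero, sub_zero] at h1
    exact h1
  · unfold jm
    rw [dq_single o u hou, dq_single o w how, dq_single o u hou, dq_single o w how]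
    unfold cm
    have g1 := c01.2
    have g2 := c12.2
    have g3 := c02.2
    have g4 := c11.2
    rw [Int.cast_one, mul_one] at g1 g2
    rw [Int.cast_zero, mul_zero, sub_zero] at g3 g4
    set a : ℝ := ((c 0 ⟨(o, u), hou.le⟩ : ℤ) : ℝ)
    set b : ℝ := ((c 1 ⟨(o, w), how.le⟩ : ℤ) : ℝ)
    set e : ℝ := ((c 0 ⟨(o, w), how.le⟩ : ℤ) : ℝ)
    set g : ℝ := ((c 1 ⟨(o, u), hou.le⟩ : ℤ) : ℝ)
    have hA : (0 : ℝ) ≤ A := Nat.cast_nonneg A
    have hrA : r * A ≤ A / 4 := by nlinarith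
    have k1 := (abs_le.1 g1).1
    have k2 := (abs_le.1 g2).1
    have m1 : 3 / 4 * (A : ℝ) ≤ a := by linarith
    have m2 : 3 / 4 * (A : ℝ) ≤ b := by linarith
    have m3 : |e * g| ≤ (A / 4) * (A / 4) := by
      rw [abs_mul]
      exact mul_le_mul (g3.trans hrA) (g4.trans hrA) (abs_nonneg _) (by positivity)
    have m4 : (3 / 4 * (A : ℝ)) * (3 / 4 * A) ≤ a * b :=
      mul_le_mul m1 m2 (by positivity) (le_trans (by positivity) m1)
    have m5 := (abs_le.1 m3).2
    refine le_trans ?_ (le_abs_self _)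
    nlinarith
  · simp only [if_true]
    intro h
    have := Int.isUnit_iff.1 (isUnit_of_dvd_one h)
    have hp1 := hp.one_lt
    omega
  · rw [qf_single]
    have h1 := (c00 i).1
    rw [sub_zero] at h1
    have h2 : ((p : ℤ) ^ 2) ∣ (V : ℤ) := by exact_mod_cast hpV
    exact h2.trans h1
  · unfold jm
    rw [dq_single o u hou, dq_single o w how, dq_single o u hou, dq_single o w how, pow_one]
    intro h
    have h2 : (p : ℤ) ∣ (V : ℤ) := by
      have h3 : p ∣ V := (Dvd.intro_left p (pow_two p).symm).trans hpV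
      exact_mod_cast h3
    have d1 := h2.trans c01.1
    have d2 := h2.trans c12.1
    have d3 := h2.trans c02.1
    have d4 := h2.trans c11.1
    rw [sub_zero] at d3 d4
    have h4 : (p : ℤ) ∣ c 0 ⟨(o, u), hou.le⟩ * c 1 ⟨(o, w), how.le⟩ -
        c 0 ⟨(o, w), how.le⟩ * c 1 ⟨(o, u), hou.le⟩ - 1 := by
      have h5 : c 0 ⟨(o, u), hou.le⟩ * c 1 ⟨(o, w), how.le⟩ -
          c 0 ⟨(o, w), how.le⟩ * c 1 ⟨(o, u), hou.le⟩ - 1 =
          (c 0 ⟨(o, u), hou.le⟩ - 1) * c 1 ⟨(o, w), how.le⟩ + (c 1 ⟨(o, w), how.le⟩ - 1) -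
            c 0 ⟨(o, w), how.le⟩ * c 1 ⟨(o, u), hou.le⟩ := by ring
      rw [h5]
      exact dvd_sub (dvd_add (d1.mul_right _) d2) (d3.mul_right _)
    have h6 := dvd_sub h h4
    rw [sub_sub_cancel] at h6
    have := Int.isUnit_iff.1 (isUnit_of_dvd_one h6)
    have hp1 := hp.one_lt
    omega

end Pool.Agent.H23.RQ
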