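import Pool.Agent.H32.RQ.Targets

/-!
Board hpq_modules, row PS2: the number of the pairs close to the special pair.
-/

set_option autoImplicit false

open Finset Pool.Agent.H32.RQ

namespace Pool.Agent.H23.RQ

open Classical in
/-- the admissible values of one coefficient -/
noncomputable def Sc (V A : ℕ) (r : ℝ) (e : ℤ) : Finset ℤ :=
  (Finset.Icc (-(A : ℤ)) A).filter fun u => (V : ℤ) ∣ u - e ∧ |(u : ℝ) - A * e| ≤ r * A

theorem cs_cases (s : ℕ) (i : Fin 2) (p : Mon s) : cs s i p = 0 ∨ cs s i p = 1 := by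
  unfold cs
  split_ifs
  · exact Or.inr rfl
  · exact Or.inl rfl

theorem Sc_card (V A : ℕ) (r : ℝ) (e : ℤ) (he : e = 0 ∨ e = 1) (hV : 1 ≤ V) (hr : 0 < r)
    (hr1 : r ≤ 1) (hA : 2 * (V : ℝ) / r ≤ A) :
    r * A / (2 * V) ≤ ((Sc V A r e).card : ℝ) := by
  classical
  have hV0 : (0 : ℝ) < V := by exact_mod_cast hV
  have hVZ : (0 : ℤ) < V := by exact_mod_cast hV
  have hA0 : (0 : ℝ) ≤ A := Nat.cast_nonneg A
  set n : ℕ := ⌊r * A / V⌋₊ with hn
  have hn1 : (n : ℝ) ≤ r * A / V := Nat.floor_le (by positivity)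
  have hn2 : r * A / V < n + 1 := Nat.lt_floor_add_one _
  have hnV : (V : ℝ) * n ≤ r * A := by
    rw [le_div_iff₀ hV0] at hn1
    linarith
  set z : ℤ := ((A : ℤ) * e - e) / V with hz
  have hz1 : (V : ℤ) * z ≤ (A : ℤ) * e - e := by
    rw [hz]
    exact Int.mul_ediv_self_le hVZ.ne'
  have hz2 : (A : ℤ) * e - e < V * z + V := by
    have := Int.lt_mul_ediv_self_add (x := (A : ℤ) * e - e) hVZ
    rw [hz]
    exact this
  have hsub : (Finset.range n).image (fun k : ℕ => e + (V : ℤ) * (z - k)) ⊆ Sc V A r e := by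
    intro u hu
    obtain ⟨k, hk, rfl⟩ := Finset.mem_image.1 hu
    have hk' : k + 1 ≤ n := Finset.mem_range.1 hk
    have hkR : ((k : ℝ) + 1) ≤ n := by exact_mod_cast hk'
    have z1 : (V : ℝ) * z ≤ (A : ℝ) * e - e := by exact_mod_cast hz1
    have z2 : (A : ℝ) * e - e < V * z + V := by exact_mod_cast hz2
    have hVk : (V : ℝ) * (k + 1) ≤ r * A := (mul_le_mul_of_nonneg_left hkR hV0.le).trans hnV
    have hk0 : (0 : ℝ) ≤ V * k := by positivity
    have hup : ((e + (V : ℤ) * (z - k) : ℤ) : ℝ) ≤ A * e := by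
      push_cast
      linarith
    have hlo : (A : ℝ) * e - r * A ≤ ((e + (V : ℤ) * (z - k) : ℤ) : ℝ) := by
      push_cast
      linarith
    have he0 : (0 : ℝ) ≤ e ∧ (e : ℝ) ≤ 1 := by
      rcases he with h | h <;> rw [h] <;> norm_num
    have hAe0 : (0 : ℝ) ≤ A * e := mul_nonneg hA0 he0.1
    have hAe1 : (A : ℝ) * e ≤ A := by
      have := mul_le_mul_of_nonneg_left he0.2 hA0
      rwa [mul_one] at this
    have hrA : r * A ≤ A := by
      have := mul_le_mul_of_nonneg_right hr1 hA0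
      rwa [one_mul] at this
    unfold Sc
    rw [Finset.mem_filter, Finset.mem_Icc]
    refine ⟨⟨?_, ?_⟩, ?_, ?_⟩
    · have h1 : (((-(A : ℤ) : ℤ)) : ℝ) ≤ ((e + (V : ℤ) * (z - k) : ℤ) : ℝ) := by
        push_cast at hlo ⊢
        linarith
      exact_mod_cast h1
    · have h1 : ((e + (V : ℤ) * (z - k) : ℤ) : ℝ) ≤ (((A : ℤ) : ℤ) : ℝ) := by
        push_cast at hup ⊢
        linarith
      exact_mod_cast h1
    · rw [add_sub_cancel_left]
      exact dvd_mul_right _ _
    · rw [abs_le]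
      constructor <;> linarith
  have hinj : Function.Injective (fun k : ℕ => e + (V : ℤ) * (z - k)) := by
    intro k k' h
    have h1 : (V : ℤ) * (z - k) = V * (z - k') := add_left_cancel h
    have h2 := mul_left_cancel₀ hVZ.ne' h1
    have h3 : (k : ℤ) = k' := by linarith
    exact_mod_cast h3
  have hcard := Finset.card_le_card hsub
  rw [Finset.card_image_of_injective _ hinj, Finset.card_range] at hcard
  have h4 : (n : ℝ) ≤ ((Sc V A r e).card : ℝ) := by exact_mod_cast hcard
  refine le_trans ?_ h4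
  have h5 : 2 ≤ r * A / V := by
    rw [le_div_iff₀ hV0]
    rw [div_le_iff₀ hr] at hA
    linarith
  have h6 : r * A / (2 * V) = (r * A / V) / 2 := by
    field_simp
  rw [h6]
  linarith

theorem pf_PS2 : T_PS2 := by
  classical
  intro s V r hV hr hr1
  refine ⟨⌈2 * (V : ℝ) / r⌉₊, fun A hA => ?_⟩
  have hA' : 2 * (V : ℝ) / r ≤ A := (Nat.le_ceil _).trans (by exact_mod_cast hA)
  have hV0 : (0 : ℝ) < V := by exact_mod_cast hV
  have hsub : (Fintype.piFinset fun i : Fin 2 => Fintype.piFinset fun p : Mon s =>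
      Sc V A r (cs s i p)) ⊆ sp s V A r := by
    intro c hc
    rw [Fintype.mem_piFinset] at hc
    unfold sp bx
    rw [Finset.mem_filter, Fintype.mem_piFinset]
    refine ⟨fun i => ?_, fun i p => ?_⟩
    · rw [Fintype.mem_piFinset]
      intro p
      exact (Finset.mem_filter.1 ((Fintype.mem_piFinset.1 (hc i)) p)).1
    · exact (Finset.mem_filter.1 ((Fintype.mem_piFinset.1 (hc i)) p)).2
  have hcard := Finset.card_le_card hsub
  rw [Fintype.card_piFinset] at hcard
  have h1 : (∏ i : Fin 2, (((Fintype.piFinset fun p : Mon s => Sc V A r (cs s i p)).card : ℕ) : ℝ)) ≤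
      ((sp s V A r).card : ℝ) := by exact_mod_cast hcard
  refine le_trans ?_ h1
  have h2 : ∀ i : Fin 2, (r * A / (2 * V)) ^ md s ≤
      (((Fintype.piFinset fun p : Mon s => Sc V A r (cs s i p)).card : ℕ) : ℝ) := by
    intro i
    rw [Fintype.card_piFinset]
    push_cast
    have h3 : (r * A / (2 * V)) ^ md s = ∏ _p : Mon s, r * A / (2 * V) := by
      rw [Finset.prod_const, Finset.card_univ]
    rw [h3]
    exact Finset.prod_le_prod (fun p _ => by positivity)
      fun p _ => Sc_card V A r _ (cs_cases s i p) hV hr hr1 hA'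
  have h4 : (r * A / (2 * V)) ^ (2 * md s) = ∏ _i : Fin 2, (r * A / (2 * V)) ^ md s := by
    rw [Finset.prod_const, Finset.card_univ, Fintype.card_fin, ← pow_mul, mul_comm (md s) 2]
  rw [h4]
  exact Finset.prod_le_prod (fun i _ => by positivity) fun i _ => h2 i

end Pool.Agent.H23.RQ
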