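import Pool.Agent.H32.RQ.Targets

/-!
Board hpq_modules, row PS3: the pairs close to the special pair which are bad modulo `M`.
-/

set_option autoImplicit false

open Finset Pool.Agent.H32.RQ

namespace Pool.Agent.H23.RQ

/-- integers in one class modulo `W` in an interval -/
theorem card_class_le (W : ℕ) (a b : ℝ) (T : Finset ℤ) (hW : 1 ≤ W) (hab : a ≤ b)
    (h1 : ∀ u ∈ T, a ≤ (u : ℝ) ∧ (u : ℝ) ≤ b) (h2 : ∀ u ∈ T, ∀ v ∈ T, (W : ℤ) ∣ u - v) :
    (T.card : ℝ) ≤ (b - a) / W + 1 := by
  have hW0 : (0 : ℝ) < W := by exact_mod_cast hW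
  rcases T.eq_empty_or_nonempty with h | h
  · rw [h, Finset.card_empty, Nat.cast_zero]
    have : 0 ≤ (b - a) / W := div_nonneg (by linarith) hW0.le
    linarith
  · set m := T.min' h with hm
    have hmT : m ∈ T := Finset.min'_mem T h
    have hcard : T.card ≤ (Finset.range (⌊(b - a) / W⌋₊ + 1)).card := by
      refine Finset.card_le_card_of_injOn (fun u => ((u - m) / W).toNat) ?_ ?_
      · intro u hu
        have hu' : u ∈ T := hu
        obtain ⟨k, hk⟩ := h2 u hu' m hmT
        have hmu : m ≤ u := Finset.min'_le T u hu'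
        have hWZ : (W : ℤ) ≠ 0 := by exact_mod_cast (by omega : W ≠ 0)
        have hk0 : 0 ≤ k := by
          by_contra hcon
          have h3 : (W : ℤ) * k < 0 := mul_neg_of_pos_of_neg (by exact_mod_cast hW) (not_le.1 hcon)
          omega
        have h4 : (u - m) / W = k := by
          rw [hk, Int.mul_ediv_cancel_left _ hWZ]
        rw [Finset.mem_coe, Finset.mem_range]
        dsimp only
        rw [h4, Nat.lt_succ_iff]
        refine Nat.le_floor ?_
        rw [le_div_iff₀ hW0]
        have h5 : ((k.toNat : ℕ) : ℝ) = (k : ℝ) := by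
          have : ((k.toNat : ℕ) : ℤ) = k := Int.toNat_of_nonneg hk0
          exact_mod_cast this
        rw [h5]
        have h6 : (W : ℝ) * k = (u : ℝ) - m := by exact_mod_cast hk.symm
        have h7 := (h1 u hu').2
        have h8 := (h1 m hmT).1
        linarith
      · intro u hu v hv huv
        have hu' : u ∈ T := hu
        have hv' : v ∈ T := hv
        have hWZ : (W : ℤ) ≠ 0 := by exact_mod_cast (by omega : W ≠ 0)
        have hWp : (0 : ℤ) < W := by exact_mod_cast hW
        obtain ⟨k, hk⟩ := h2 u hu' m hmT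
        obtain ⟨l, hl⟩ := h2 v hv' m hmT
        have hmu : m ≤ u := Finset.min'_le T u hu'
        have hmv : m ≤ v := Finset.min'_le T v hv'
        have hk0 : 0 ≤ k := by
          by_contra hcon
          have h3 : (W : ℤ) * k < 0 := mul_neg_of_pos_of_neg hWp (not_le.1 hcon)
          omega
        have hl0 : 0 ≤ l := by
          by_contra hcon
          have h3 : (W : ℤ) * l < 0 := mul_neg_of_pos_of_neg hWp (not_le.1 hcon)
          omega
        dsimp only at huv
        rw [hk, hl, Int.mul_ediv_cancel_left _ hWZ, Int.mul_ediv_cancel_left _ hWZ] at huv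
        have h5 : k = l := by
          have h6 : ((k.toNat : ℕ) : ℤ) = ((l.toNat : ℕ) : ℤ) := congrArg _ huv
          rwa [Int.toNat_of_nonneg hk0, Int.toNat_of_nonneg hl0] at h6
        rw [h5, ← hl] at hk
        linarith
    rw [Finset.card_range] at hcard
    have h3 : (T.card : ℝ) ≤ (⌊(b - a) / W⌋₊ : ℝ) + 1 := by exact_mod_cast hcard
    have h4 : (⌊(b - a) / W⌋₊ : ℝ) ≤ (b - a) / W :=
      Nat.floor_le (div_nonneg (by linarith) hW0.le)
    linarith

open Classical in
/-- the admissible values of one coefficient in a class modulo `M` -/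
noncomputable def Sm (V M A : ℕ) (r : ℝ) (e : ℤ) (f : ZMod M) : Finset ℤ :=
  (Finset.Icc (-(A : ℤ)) A).filter fun u => ((V : ℤ) ∣ u - e ∧ |(u : ℝ) - A * e| ≤ r * A) ∧
    (u : ZMod M) = f

theorem Sm_card (V M A : ℕ) (r : ℝ) (e : ℤ) (f : ZMod M) (hV : 1 ≤ V) (hM : 1 ≤ M) (hr : 0 < r)
    (hco : Nat.Coprime V M) (hA : (V : ℝ) * M / r ≤ A) :
    ((Sm V M A r e f).card : ℝ) ≤ 4 * r * A / (V * M) := by
  classical
  have hV0 : (0 : ℝ) < V := by exact_mod_cast hV
  have hM0 : (0 : ℝ) < M := by exact_mod_cast hM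
  have hA0 : (0 : ℝ) ≤ A := Nat.cast_nonneg A
  have h1 := card_class_le (V * M) (A * e - r * A) (A * e + r * A) (Sm V M A r e f)
    (Nat.mul_pos hV hM) (by nlinarith) (fun u hu => by
      have h2 := (abs_le.1 (Finset.mem_filter.1 hu).2.1.2)
      constructor <;> linarith) (fun u hu v hv => by
      have h2 := (Finset.mem_filter.1 hu).2
      have h3 := (Finset.mem_filter.1 hv).2
      have h4 : (V : ℤ) ∣ u - v := by
        have := dvd_sub h2.1.1 h3.1.1
        rwa [sub_sub_sub_cancel_right] at this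
      have h5 : (M : ℤ) ∣ u - v := by
        rw [← ZMod.intCast_zmod_eq_zero_iff_dvd, Int.cast_sub, h2.2, h3.2, sub_self]
      have h6 : IsCoprime (V : ℤ) (M : ℤ) := Nat.isCoprime_iff_coprime.2 hco
      have h7 := h6.mul_dvd h4 h5
      push_cast
      exact h7)
  refine h1.trans ?_
  have h2 : (A * (e : ℝ) + r * A - (A * e - r * A)) / ((V * M : ℕ) : ℝ) =
      2 * (r * A / (V * M)) := by
    push_cast
    ring
  have h3 : 1 ≤ r * A / (V * M) := by
    rw [le_div_iff₀ (by positivity), one_mul]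
    rw [div_le_iff₀ hr] at hA
    linarith
  have h4 : 4 * r * A / (V * M) = 4 * (r * A / (V * M)) := by ring
  rw [h2, h4]
  linarith

theorem pf_PS3 : T_PS3 := by
  classical
  intro s V M _ r hV hr hr1 hco
  refine ⟨⌈(V : ℝ) * M / r⌉₊, fun A hA E => ?_⟩
  have hA' : (V : ℝ) * M / r ≤ A := (Nat.le_ceil _).trans (by exact_mod_cast hA)
  have hM : 1 ≤ M := Nat.one_le_iff_ne_zero.2 (NeZero.ne M)
  have hV0 : (0 : ℝ) < V := by exact_mod_cast hV
  have hM0 : (0 : ℝ) < M := by exact_mod_cast hM
  have hfib : ∀ F : Fin 2 → Mon s → ZMod M,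
      (((sp s V A r).filter fun c => cm (ZMod M) c = F).card : ℝ) ≤
        (4 * r * A / (V * M)) ^ (2 * md s) := by
    intro F
    have hsub : ((sp s V A r).filter fun c => cm (ZMod M) c = F) ⊆
        Fintype.piFinset fun i : Fin 2 => Fintype.piFinset fun p : Mon s =>
          Sm V M A r (cs s i p) (F i p) := by
      intro c hc
      obtain ⟨h1, h2⟩ := Finset.mem_filter.1 hc
      obtain ⟨h3, h4⟩ := Finset.mem_filter.1 h1
      rw [Fintype.mem_piFinset]
      intro i
      rw [Fintype.mem_piFinset]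
      intro p
      refine Finset.mem_filter.2 ⟨?_, h4 i p, ?_⟩
      · exact Fintype.mem_piFinset.1 (Fintype.mem_piFinset.1 h3 i) p
      · exact congrFun (congrFun h2 i) p
    have hcard := Finset.card_le_card hsub
    rw [Fintype.card_piFinset] at hcard
    have h1 : (((sp s V A r).filter fun c => cm (ZMod M) c = F).card : ℝ) ≤
        ∏ i : Fin 2, (((Fintype.piFinset fun p : Mon s =>
          Sm V M A r (cs s i p) (F i p)).card : ℕ) : ℝ) := by exact_mod_cast hcard
    refine h1.trans ?_
    have h2 : ∀ i : Fin 2, (((Fintype.piFinset fun p : Mon s =>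
        Sm V M A r (cs s i p) (F i p)).card : ℕ) : ℝ) ≤ (4 * r * A / (V * M)) ^ md s := by
      intro i
      rw [Fintype.card_piFinset]
      push_cast
      have h3 : (4 * r * A / (V * M)) ^ md s = ∏ _p : Mon s, 4 * r * A / (V * M) := by
        rw [Finset.prod_const, Finset.card_univ]
      rw [h3]
      exact Finset.prod_le_prod (fun p _ => Nat.cast_nonneg _)
        fun p _ => Sm_card V M A r _ _ hV hM hr hco hA'
    have h4 : (4 * r * A / (V * M)) ^ (2 * md s) = ∏ _i : Fin 2, (4 * r * A / (V * M)) ^ md s := by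
      rw [Finset.prod_const, Finset.card_univ, Fintype.card_fin, ← pow_mul, mul_comm (md s) 2]
    rw [h4]
    exact Finset.prod_le_prod (fun i _ => Nat.cast_nonneg _) fun i _ => h2 i
  have hsum : (((sp s V A r).filter fun c => cm (ZMod M) c ∈ E).card : ℝ) =
      ∑ F ∈ E, (((sp s V A r).filter fun c => cm (ZMod M) c = F).card : ℝ) := by
    have h1 := Finset.card_eq_sum_card_fiberwise
      (s := (sp s V A r).filter fun c => cm (ZMod M) c ∈ E) (t := E)
      (f := fun c => cm (ZMod M) c) (fun c hc => (Finset.mem_filter.1 hc).2)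
    rw [h1]
    push_cast
    refine Finset.sum_congr rfl fun F hF => ?_
    congr 2
    ext c
    rw [Finset.mem_filter, Finset.mem_filter, Finset.mem_filter]
    constructor
    · rintro ⟨⟨h2, -⟩, h3⟩
      exact ⟨h2, h3⟩
    · rintro ⟨h2, h3⟩
      exact ⟨⟨h2, h3 ▸ hF⟩, h3⟩
  rw [hsum]
  have h5 : ∑ F ∈ E, (((sp s V A r).filter fun c => cm (ZMod M) c = F).card : ℝ) ≤
      E.card * (4 * r * A / (V * M)) ^ (2 * md s) := by
    rw [← nsmul_eq_mul]
    exact Finset.sum_le_card_nsmul _ _ _ fun F _ => hfib F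
  have h6 := mul_le_mul_of_nonneg_right h5 (by positivity : (0 : ℝ) ≤ (M : ℝ) ^ (2 * md s))
  refine h6.trans (le_of_eq ?_)
  have h7 : (4 * r * A / V) ^ (2 * md s) = (4 * r * A / (V * M)) ^ (2 * md s) *
      (M : ℝ) ^ (2 * md s) := by
    rw [← mul_pow]
    congr 1
    field_simp
  rw [h7]
  ring

end Pool.Agent.H23.RQ
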