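import Pool.Agent.H29.RQ.Targets

set_option autoImplicit false

/-!
# The relative Dobrowolski bound over cyclotomic fields: row RDQ of the board `rdq_modules`
-/

namespace Pool.Agent.H23.RQ

open NumberField Height Finset Polynomial Pool.Agent.H24.RD Pool.Agent.H23.RDD Pool.Agent.H29.RQ

theorem lv_zero (Ω : Type) [Field Ω] [CharZero Ω] (γ : Fin 0 → ℚ) (N K : ℕ) :
    Lv ℚ Ω γ N K = IntermediateField.adjoin ℚ {z : Ω | z ^ N = 1} := by
  have h : {z : Ω | z ^ N = 1 ∨ ∃ i, z ^ K = algebraMap ℚ Ω (γ i)} = {z : Ω | z ^ N = 1} := by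
    ext z
    constructor
    · rintro (h | ⟨i, -⟩)
      · exact h
      · exact i.elim0
    · intro h
      exact Or.inl h
  unfold Lv
  rw [h]

theorem pf_RDQ (h1 : T_HB) (h2 : T_REDQ) (h3 : T_DPQ) (h4 : T_FRQ) : T_RDQ := by
  classical
  intro Ω _ _ _ _ ε hε
  obtain ⟨hnn, hmul, hinv, hpow, htor, hconj, hzero⟩ := h1 Ω
  set γ : Fin 0 → ℚ := fun i => i.elim0 with hγd
  have hγ0 : ∀ i, γ i ≠ 0 := fun i => i.elim0
  have hγ : MInd ℚ γ := ⟨hγ0, fun x _ => funext fun i => i.elim0⟩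
  obtain ⟨c1, hc1, hD⟩ := h3 ℚ Ω 2 Nat.prime_two 0 γ hγ (ε / 2) (half_pos hε)
  obtain ⟨c2, hc2, hF⟩ := h4 Ω 2 Nat.prime_two (ε / 2) (half_pos hε)
  refine ⟨min c1 (c1 * c2), lt_min hc1 (mul_pos hc1 hc2), ?_⟩
  intro N d hN hd β hβ0 hβu hCj
  obtain ⟨N1, a, d1, hN1, -, ha, hd1, had, hC1, hR1⟩ :=
    h2 ℚ Ω 0 γ hγ0 N 1 d hN (one_dvd _) hd β hβ0 (by rw [lv_zero]; exact hCj)
  have hd1R : (1 : ℝ) ≤ d1 := by exact_mod_cast hd1
  have haR : (1 : ℝ) ≤ a := by exact_mod_cast ha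
  have hadR : (a : ℝ) * d1 ≤ d := by exact_mod_cast had
  have hh0 := hnn β
  -- it is enough to bound `a h(β) d1 ^ (1 + ε)`
  have key : min c1 (c1 * c2) ≤ a * absLogHeight₁ β * (d1 : ℝ) ^ (1 + ε) →
      min c1 (c1 * c2) ≤ absLogHeight₁ β * (d : ℝ) ^ (1 + ε) := by
    intro h
    have e1 : (a : ℝ) * (d1 : ℝ) ^ (1 + ε) ≤ (d : ℝ) ^ (1 + ε) := by
      calc (a : ℝ) * (d1 : ℝ) ^ (1 + ε) ≤ (a : ℝ) ^ (1 + ε) * (d1 : ℝ) ^ (1 + ε) := by
            apply mul_le_mul_of_nonneg_right _ (by positivity)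
            calc (a : ℝ) = (a : ℝ) ^ (1 : ℝ) := (Real.rpow_one _).symm
              _ ≤ (a : ℝ) ^ (1 + ε) := Real.rpow_le_rpow_of_exponent_le haR (by linarith)
        _ = ((a : ℝ) * d1) ^ (1 + ε) := (Real.mul_rpow (by positivity) (by positivity)).symm
        _ ≤ (d : ℝ) ^ (1 + ε) := Real.rpow_le_rpow (by positivity) hadR (by linarith)
    calc min c1 (c1 * c2) ≤ a * absLogHeight₁ β * (d1 : ℝ) ^ (1 + ε) := h
      _ = absLogHeight₁ β * (a * (d1 : ℝ) ^ (1 + ε)) := by ring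
      _ ≤ absLogHeight₁ β * (d : ℝ) ^ (1 + ε) := mul_le_mul_of_nonneg_left e1 hh0
  apply key
  have hpa : absLogHeight₁ (β ^ a) = a * absLogHeight₁ β := hpow β a
  rw [← hpa]
  have hha := hnn (β ^ a)
  by_cases hc : absLogHeight₁ (β ^ a) < c1 / (d1 : ℝ) ^ (1 + ε / 2)
  · obtain ⟨k, hk, hD'⟩ := hD d1 hd1
    obtain ⟨n, N', hN', hNN⟩ := Nat.exists_eq_pow_mul_and_not_dvd hN1.ne' 2 (by norm_num)
    have hrep : RepD ℚ Ω γ (2 ^ n * N') (2 ^ 0 * 1) d1 (β ^ a) := by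
      refine ⟨β ^ a, pow_ne_zero _ hβ0, ?_, ?_, 1, ⟨one_ne_zero, 1, one_pos, 0, ?_⟩,
        (mul_one _).symm⟩
      · rw [lv_zero, ← hNN, ← lv_zero Ω γ N1 1]
        exact hC1
      · rw [lv_zero, ← hNN, ← lv_zero Ω γ N1 1]
        exact hR1
      · simp
    obtain ⟨b, hb0, hbC, hbR, g, ⟨hg0, j, hj, x, hgj⟩, hbg⟩ :=
      hD' n 0 N' 1 (Nat.zero_le _) hN' (one_dvd _) (β ^ a) hrep hc
    have hgj' : g ^ j = 1 := by
      rw [hgj]
      exact Finset.prod_of_isEmpty _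
    have hbh : absLogHeight₁ (β ^ a) = absLogHeight₁ b := by
      rw [hbg, mul_comm]
      exact htor g b j hj hgj'
    have hbu : ∀ m : ℕ, 0 < m → b ^ m ≠ 1 := by
      intro m hm hbm
      apply hβu (a * (m * j)) (by positivity)
      rw [pow_mul, hbg, mul_pow, pow_mul b, hbm, mul_comm m j, pow_mul g, hgj', one_pow, one_pow,
        mul_one]
    rw [lv_zero] at hbC hbR
    have hfin := hF k N' d1 hN' hd1 b hb0 hbu hbC hbR
    rw [← hbh] at hfin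
    refine (min_le_right _ _).trans ?_
    have hk2 : c1 * (2 : ℝ) ^ k ≤ (d1 : ℝ) ^ (ε / 2) := by exact_mod_cast hk
    have hfin2 : c2 ≤ absLogHeight₁ (β ^ a) * ((d1 : ℝ) ^ (1 + ε / 2) * (2 : ℝ) ^ k) := by
      exact_mod_cast hfin
    calc c1 * c2 ≤ c1 * (absLogHeight₁ (β ^ a) * ((d1 : ℝ) ^ (1 + ε / 2) * (2 : ℝ) ^ k)) :=
          mul_le_mul_of_nonneg_left hfin2 hc1.le
      _ = absLogHeight₁ (β ^ a) * (d1 : ℝ) ^ (1 + ε / 2) * (c1 * (2 : ℝ) ^ k) := by ring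
      _ ≤ absLogHeight₁ (β ^ a) * (d1 : ℝ) ^ (1 + ε / 2) * (d1 : ℝ) ^ (ε / 2) :=
          mul_le_mul_of_nonneg_left hk2 (by positivity)
      _ = absLogHeight₁ (β ^ a) * (d1 : ℝ) ^ (1 + ε) := by
          rw [mul_assoc, ← Real.rpow_add (by linarith)]
          congr 2
          ring
  · refine (min_le_left _ _).trans ?_
    rw [not_lt, div_le_iff₀ (by positivity)] at hc
    refine hc.trans (mul_le_mul_of_nonneg_left ?_ hha)
    exact Real.rpow_le_rpow_of_exponent_le hd1R (by linarith)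

end Pool.Agent.H23.RQ
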